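import Pool.Agent.H66.IP.TC

/-!
# The language of the strings which have a witness is in NP
-/

set_option autoImplicit false

namespace Pool.Agent.H77.IP

open Finset Pool.Agent.H6.NB Pool.Agent.H70.OQ Pool.Agent.H66.IP

/-- The decision tree: query the string `0 w`, where `w` is the guessed string. -/
def wnpTree (x : List Bool) : List (List Bool) → DT
  | [w] => if w.length = x.length then .node (false :: w) (.leaf false) (.leaf true) else .leaf false
  | _ => .leaf false

theorem pf_WNP : T_WNP := by
  refine ⟨⟨1, wnpTree, ?_, ?_⟩, ?_⟩
  · intro x ws hws _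
    obtain ⟨w, rfl⟩ := List.length_eq_one_iff.1 hws
    simp only [wnpTree]
    split_ifs
    · simp [DT.depth]
    · simp [DT.depth]
  · intro x ws hws _
    obtain ⟨w, rfl⟩ := List.length_eq_one_iff.1 hws
    simp only [wnpTree]
    split_ifs with h
    · simp [DT.Short, h]
    · simp [DT.Short]
  · intro O
    ext x
    simp only [Machine.lang, Alt, wit, Set.mem_ofPred_eq, wnpTree]
    constructor
    · rintro ⟨w, _, h⟩
      by_cases hw : w.length = x.length
      · rw [if_pos hw] at h
        refine ⟨w, hw, ?_⟩
        by_contra hO
        simp [DT.eval, hO] at h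
      · rw [if_neg hw] at h
        simp [DT.eval] at h
    · rintro ⟨v, hv, hO⟩
      refine ⟨v, by simp [hv], ?_⟩
      rw [if_pos hv]
      simp [DT.eval, hO]

end Pool.Agent.H77.IP
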